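import Pool.Agent.Q211.AR.Sum

/-!
# Algebraic recurrence does not pass to subgroups of finite index

The group is the semidirect product of the direct sum of countably many copies of `ℤ` with a
group of order two acting by inversion.
-/

set_option autoImplicit false

open MeasureTheory Filter Topology Pool.Agent.Q211.AR

namespace Pool.Agent.Results.MP_7faad7_pr.FiniteIndexSubgroup

/-- The generalised dihedral group of the direct sum of countably many copies of `ℤ`. -/
@[ext] structure GD where
  /-- the translation part -/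
  v : ℕ →₀ ℤ
  /-- the sign -/
  s : ℤˣ

namespace GD

noncomputable instance : Mul GD := ⟨fun a b => ⟨a.v + (a.s : ℤ) • b.v, a.s * b.s⟩⟩
noncomputable instance : One GD := ⟨⟨0, 1⟩⟩
noncomputable instance : Inv GD := ⟨fun a => ⟨-((a.s : ℤ) • a.v), a.s⟩⟩

theorem mul_v (a b : GD) : (a * b).v = a.v + (a.s : ℤ) • b.v := rfl
theorem mul_s (a b : GD) : (a * b).s = a.s * b.s := rfl
theorem one_v : (1 : GD).v = 0 := rfl
theorem one_s : (1 : GD).s = 1 := rfl
theorem inv_v (a : GD) : a⁻¹.v = -((a.s : ℤ) • a.v) := rfl
theorem inv_s (a : GD) : a⁻¹.s = a.s := rfl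

noncomputable instance : Group GD := Group.ofLeftAxioms
  (by
    intro a b c
    ext1
    · simp only [mul_v, mul_s, Units.val_mul, smul_add, mul_smul, add_assoc]
    · simp only [mul_s, mul_assoc])
  (by
    intro a
    ext1
    · simp only [mul_v, one_v, one_s, Units.val_one, one_smul, zero_add]
    · simp only [mul_s, one_s, one_mul])
  (by
    intro a
    ext1
    · simp only [mul_v, inv_v, inv_s, one_v, neg_add_cancel]
    · simp only [mul_s, inv_s, one_s]
      exact Int.units_mul_self _)

theorem countable_GD : Countable GD := by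
  have h : Function.Injective (fun g : GD => (g.v, g.s)) := by
    intro a b hab
    simp only [Prod.mk.injEq] at hab
    exact GD.ext hab.1 hab.2
  exact h.countable

/-- The sign as a homomorphism. -/
noncomputable def sgn : GD →* ℤˣ where
  toFun := s
  map_one' := rfl
  map_mul' _ _ := rfl

/-- The product of two elements of negative sign equal to each other is trivial. -/
theorem refl_sq (a : GD) (ha : a.s = -1) : a * a = 1 := by
  ext1
  · rw [mul_v, ha, one_v]
    simp
  · rw [mul_s, ha, one_s]
    simp

/-- The subgroup of translations. -/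
noncomputable def T : Subgroup GD := sgn.ker

theorem mem_T (g : GD) : g ∈ T ↔ g.s = 1 := MonoidHom.mem_ker

/-- The translation subgroup maps onto the direct sum. -/
noncomputable def toSum : T →* Multiplicative (ℕ →₀ ℤ) where
  toFun g := Multiplicative.ofAdd (g : GD).v
  map_one' := rfl
  map_mul' a b := by
    have ha : (a : GD).s = 1 := (mem_T _).1 a.2
    show Multiplicative.ofAdd ((a : GD) * (b : GD)).v = _
    rw [mul_v, ha, Units.val_one, one_smul]
    rfl

theorem toSum_surjective : Function.Surjective toSum := by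
  intro f
  exact ⟨⟨⟨Multiplicative.toAdd f, 1⟩, (mem_T _).2 rfl⟩, rfl⟩

end GD

open GD

theorem walk_succ {G : Type} [Group G] (ω : ℕ → G) (k : ℕ) :
    walk ω (k + 1) = walk ω k * ω k := by
  simp [walk, List.range_succ]

theorem ar_det (S : Set GD) (hS : Subgroup.closure S = ⊤) (ω : ℕ → GD) (n : ℕ)
    (h : ∀ g ∈ S, ∃ k, n ≤ k ∧ ω k = g) : tail ω n = ⊤ := by
  have hX : ∀ k, n ≤ k → walk ω k ∈ tail ω n := fun k hk =>
    Subsemigroup.subset_closure ⟨k, hk, rfl⟩
  have hr : ∃ r ∈ S, r.s = -1 := by
    by_contra hcon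
    push Not at hcon
    have h1 : Subgroup.closure S ≤ T := by
      rw [Subgroup.closure_le]
      intro g hg
      have h2 := hcon g hg
      rw [SetLike.mem_coe, mem_T]
      rcases Int.units_eq_one_or g.s with h3 | h3
      · exact h3
      · exact absurd h3 h2
    rw [hS] at h1
    have h2 : (⟨0, -1⟩ : GD) ∈ T := h1 trivial
    rw [mem_T] at h2
    exact absurd h2 (by decide)
  obtain ⟨ρ, hρ, hρs⟩ : ∃ ρ ∈ tail ω n, ρ.s = -1 := by
    obtain ⟨r, hr1, hr2⟩ := hr
    obtain ⟨k, hk, hkr⟩ := h r hr1
    rcases Int.units_eq_one_or (walk ω k).s with h3 | h3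
    · refine ⟨walk ω (k + 1), hX _ (by omega), ?_⟩
      rw [walk_succ, mul_s, h3, hkr, hr2, one_mul]
    · exact ⟨walk ω k, hX k hk, h3⟩
  have hinv : ∀ x ∈ tail ω n, x⁻¹ ∈ tail ω n := by
    intro x hx
    rcases Int.units_eq_one_or x.s with h3 | h3
    · have h4 : ρ * x * ρ = x⁻¹ := by
        have h5 := refl_sq (ρ * x) (by rw [mul_s, hρs, h3, mul_one])
        rw [eq_comm, inv_eq_iff_mul_eq_one]
        calc x * (ρ * x * ρ) = ρ⁻¹ * ((ρ * x) * (ρ * x)) * ρ := by group
          _ = 1 := by rw [h5]; group
      rw [← h4]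
      exact (tail ω n).mul_mem ((tail ω n).mul_mem hρ hx) hρ
    · have h4 : x⁻¹ = x := by
        rw [inv_eq_iff_mul_eq_one]
        exact refl_sq x h3
      rw [h4]
      exact hx
  let C : Subgroup GD :=
    { carrier := tail ω n
      mul_mem' := fun ha hb => (tail ω n).mul_mem ha hb
      one_mem' := by
        have h4 := (tail ω n).mul_mem hρ hρ
        rwa [refl_sq ρ hρs] at h4
      inv_mem' := fun ha => hinv _ ha }
  have hC : C = ⊤ := by
    rw [eq_top_iff, ← hS, Subgroup.closure_le]
    intro g hg
    obtain ⟨k, hk, hkg⟩ := h g hg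
    have h3 : (walk ω k)⁻¹ * walk ω (k + 1) ∈ C :=
      C.mul_mem (C.inv_mem (hX k hk)) (hX (k + 1) (by omega))
    rw [walk_succ, inv_mul_cancel_left, hkg] at h3
    exact h3
  rw [eq_top_iff]
  intro x _
  have : x ∈ C := by
    rw [hC]
    trivial
  exact this

theorem groupAR_GD : GroupAR GD := by
  intro μ hμ n _
  let _ : MeasurableSpace GD := ⊤
  have : DiscreteMeasurableSpace GD := ⟨fun _ => trivial⟩
  have : Countable GD := countable_GD
  have h1 : ∀ᵐ ω ∂(Measure.infinitePi (fun _ : ℕ => μ.toMeasure)),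
      ∀ g : GD, g ∈ μ.support → ∃ k, n ≤ k ∧ ω k = g := by
    rw [ae_all_iff]
    intro g
    by_cases hg : g ∈ μ.support
    · have hpos : 0 < μ.toMeasure ({g} : Set GD) := by
        rw [PMF.toMeasure_apply_singleton _ _ MeasurableSet.of_discrete]
        exact pos_iff_ne_zero.2 ((PMF.mem_support_iff _ _).1 hg)
      have hlt : μ.toMeasure ({g}ᶜ : Set GD) < 1 := by
        rw [prob_compl_eq_one_sub MeasurableSet.of_discrete]
        exact ENNReal.sub_lt_self ENNReal.one_ne_top one_ne_zero hpos.ne'
      have h2 := Pool.Agent.H582AR.Gen.never μ.toMeasure _ hlt n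
      rw [ae_iff]
      convert h2 using 2
      ext ω
      simp [hg]
    · exact Eventually.of_forall fun ω h => absurd h hg
  show ∀ᵐ ω ∂(Measure.infinitePi (fun _ : ℕ => μ.toMeasure)), tail ω n = ⊤
  filter_upwards [h1] with ω hω
  exact ar_det μ.support hμ.2 ω n hω

/-- There are a countable group which is algebraically recurrent and a subgroup of finite index
which is not. -/
theorem result : ∃ (G : Type) (_ : Group G) (_ : Countable G) (H : Subgroup G),
    GroupAR G ∧ H.FiniteIndex ∧ ¬ GroupAR H := by
  have hc : Countable GD := countable_GD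
  refine ⟨GD, inferInstance, hc, T, groupAR_GD, ?_, ?_⟩
  · unfold T
    infer_instance
  · exact not_GroupAR_of_lift toSum toSum_surjective (Sum.nu (Equiv.refl ℕ))
      (Sum.nu_admissible _) (Sum.nu_strong _)

end Pool.Agent.Results.MP_7faad7_pr.FiniteIndexSubgroup
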